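import Mathlib.Analysis.Convex.Deriv
import Mathlib.MeasureTheory.Measure.Hausdorff
import Mathlib.Analysis.InnerProductSpace.PiL2

/-! Local length estimates for curves given by convex functions. -/

open Set Filter Topology MeasureTheory

namespace Pool.Agent.Q141.Klam

/-- right derivative at `0` -/
noncomputable def rd (F : ℝ → ℝ) : ℝ := derivWithin F (Ioi 0) 0

lemma rd_le {F : ℝ → ℝ} (hF : ConvexOn ℝ univ F) {s t : ℝ} (hs : 0 ≤ s) (hst : s < t) :
    rd F ≤ (F t - F s) / (t - s) := by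
  have h0 : (0 : ℝ) ∈ interior (univ : Set ℝ) := by simp
  have key : ∀ u : ℝ, 0 < u → rd F ≤ (F u - F 0) / (u - 0) := by
    intro u hu
    have := hF.rightDeriv_le_slope_of_mem_interior h0 (mem_univ u) hu
    rwa [slope_def_field] at this
  rcases hs.eq_or_lt with rfl | hs'
  · exact key t hst
  · exact (key s hs').trans (hF.slope_mono_adjacent (mem_univ _) (mem_univ _) hs' hst)

lemma le_far {F : ℝ → ℝ} (hF : ConvexOn ℝ univ F) {s t d : ℝ} (hst : s < t) (htd : t < d)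
    (hd : 0 < d) : (F t - F s) / (t - s) ≤ (F (2 * d) - F d) / (2 * d - d) :=
  (hF.slope_mono_adjacent (mem_univ _) (mem_univ _) hst htd).trans
    (hF.slope_mono_adjacent (mem_univ _) (mem_univ _) htd (by linarith))

lemma far_tendsto {F : ℝ → ℝ} (hF : ConvexOn ℝ univ F) :
    Tendsto (fun d : ℝ => (F (2 * d) - F d) / (2 * d - d)) (𝓝[>] 0) (𝓝 (rd F)) := by
  have h0 : (0 : ℝ) ∈ interior (univ : Set ℝ) := by simp
  have h1 := hF.hasDerivWithinAt_rightDeriv_of_mem_interior h0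
  have h2 : Tendsto (slope F 0) (𝓝[>] 0) (𝓝 (rd F)) :=
    (hasDerivWithinAt_iff_tendsto_slope' self_notMem_Ioi).1 h1
  have h3 : Tendsto (fun d : ℝ => 2 * d) (𝓝[>] 0) (𝓝[>] 0) := by
    apply tendsto_nhdsWithin_of_tendsto_nhds_of_eventually_within
    · have : Tendsto (fun d : ℝ => 2 * d) (𝓝 0) (𝓝 (2 * 0)) :=
        (continuous_const.mul continuous_id).tendsto 0
      rw [mul_zero] at this
      exact this.mono_left nhdsWithin_le_nhds
    · filter_upwards [self_mem_nhdsWithin] with d hd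
      have : (0 : ℝ) < d := hd
      show (0 : ℝ) < 2 * d
      linarith
  have h4 := ((h2.comp h3).const_mul 2).sub h2
  have e : 2 * rd F - rd F = rd F := by ring
  rw [e] at h4
  refine h4.congr' ?_
  filter_upwards [self_mem_nhdsWithin] with d hd
  have hd' : (0 : ℝ) < d := hd
  simp only [Function.comp, slope_def_field, sub_zero]
  field_simp
  ring

/-- all difference quotients and values near `0` -/
lemma near {F : ℝ → ℝ} (hF : ConvexOn ℝ univ F) (hc : Continuous F) {ε : ℝ} (hε : 0 < ε) :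
    ∃ d : ℝ, 0 < d ∧ ∀ s t : ℝ, 0 ≤ s → s < t → t < d →
      |(F t - F s) / (t - s) - rd F| < ε ∧ |F s - F 0| < ε ∧ |F t - F 0| < ε ∧ |s| < ε := by
  have h1 : ∀ᶠ d in 𝓝[>] (0 : ℝ), |(F (2 * d) - F d) / (2 * d - d) - rd F| < ε := by
    have := (far_tendsto hF).eventually (Metric.ball_mem_nhds (rd F) hε)
    filter_upwards [this] with d hd
    simpa [Real.dist_eq] using hd
  have h2 : ∀ᶠ d in 𝓝 (0 : ℝ), |F d - F 0| < ε := by
    have := (hc.tendsto 0).eventually (Metric.ball_mem_nhds (F 0) hε)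
    filter_upwards [this] with d hd
    simpa [Real.dist_eq] using hd
  obtain ⟨d1, hd1, h1'⟩ := (mem_nhdsGT_iff_exists_Ioo_subset (a := (0 : ℝ))).1 h1
  obtain ⟨d2, hd2, h2'⟩ := Metric.eventually_nhds_iff.1 h2
  have hd1' : (0 : ℝ) < d1 := hd1
  refine ⟨min (min (d1 / 2) d2) ε, by positivity, fun s t hs hst ht => ?_⟩
  have ht1 : t < d1 / 2 := ht.trans_le ((min_le_left _ _).trans (min_le_left _ _))
  have ht2 : t < d2 := ht.trans_le ((min_le_left _ _).trans (min_le_right _ _))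
  have ht3 : t < ε := ht.trans_le (min_le_right _ _)
  refine ⟨?_, ?_, ?_, ?_⟩
  · have a1 := rd_le hF hs hst
    have a2 := le_far hF hst ht1 (by linarith)
    have a3 : |(F (2 * (d1 / 2)) - F (d1 / 2)) / (2 * (d1 / 2) - d1 / 2) - rd F| < ε :=
      h1' ⟨by linarith, by linarith⟩
    rw [abs_lt] at a3 ⊢
    constructor <;> linarith [a3.1, a3.2]
  · exact h2' (by rw [Real.dist_eq, sub_zero, abs_of_nonneg hs]; linarith)
  · exact h2' (by rw [Real.dist_eq, sub_zero, abs_of_nonneg (by linarith)]; linarith)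
  · rw [abs_of_nonneg hs]; linarith

/-- the speed as a function of difference quotients -/
noncomputable def Phi (p : ℝ × ℝ × ℝ × ℝ) : ℝ :=
  √((p.1 / (p.2.1 * p.2.2.1)) ^ 2 + (1 / p.2.2.1 - p.2.2.2 * (p.1 / (p.2.1 * p.2.2.1))) ^ 2)

/-- the one-sided speed at `0` -/
noncomputable def V (F : ℝ → ℝ) : ℝ := √((rd F / (F 0 * F 0)) ^ 2 + (1 / F 0) ^ 2)

lemma V_eq (F : ℝ → ℝ) : V F = Phi (rd F, F 0, F 0, 0) := by
  simp [V, Phi]

lemma Phi_cont {a c : ℝ} (hc : c ≠ 0) : ContinuousAt Phi (a, c, c, 0) := by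
  unfold Phi
  have h1 : ContinuousAt (fun p : ℝ × ℝ × ℝ × ℝ => p.1 / (p.2.1 * p.2.2.1)) (a, c, c, 0) := by
    apply ContinuousAt.div (by fun_prop) (by fun_prop)
    exact mul_ne_zero hc hc
  have h2 : ContinuousAt (fun p : ℝ × ℝ × ℝ × ℝ => 1 / p.2.2.1) (a, c, c, 0) := by
    apply ContinuousAt.div (by fun_prop) (by fun_prop)
    exact hc
  have h3 : ContinuousAt (fun p : ℝ × ℝ × ℝ × ℝ => p.2.2.2) (a, c, c, 0) := by fun_prop
  exact ((h1.pow 2).add ((h2.sub (h3.mul h1)).pow 2)).sqrt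

variable {E : Type*} [NormedAddCommGroup E] [InnerProductSpace ℝ E]

/-- orthonormal pair -/
structure ON (e f : E) : Prop where
  ne : ‖e‖ = 1
  nf : ‖f‖ = 1
  or : inner ℝ e f = 0

lemma ON.norm {e f : E} (h : ON e f) (a b : ℝ) : ‖a • e + b • f‖ = √(a ^ 2 + b ^ 2) := by
  have : ‖a • e + b • f‖ ^ 2 = a ^ 2 + b ^ 2 := by
    rw [norm_add_sq_real, inner_smul_left, inner_smul_right, h.or, norm_smul, norm_smul, h.ne, h.nf]
    simp
  rw [← this, Real.sqrt_sq (norm_nonneg _)]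

/-- the curve -/
noncomputable def cur (F : ℝ → ℝ) (e f : E) (t : ℝ) : E := (1 / F t) • (e + t • f)

lemma cur_sub {F : ℝ → ℝ} (hp : ∀ x, 0 < F x) {e f : E} (h : ON e f) {s t : ℝ} (hst : s < t) :
    ‖cur F e f t - cur F e f s‖ = (t - s) * Phi ((F t - F s) / (t - s), F s, F t, s) := by
  have e1 : cur F e f t - cur F e f s = (1 / F t - 1 / F s) • e + (t / F t - s / F s) • f := by
    unfold cur
    rw [smul_add, smul_add, smul_smul, smul_smul, sub_smul, sub_smul]
    rw [show 1 / F t * t = t / F t by ring, show 1 / F s * s = s / F s by ring]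
    abel
  have hts : 0 < t - s := by linarith
  rw [e1, h.norm]
  unfold Phi
  rw [show (t - s) * √(((F t - F s) / (t - s) / (F s * F t)) ^ 2 +
      (1 / F t - s * ((F t - F s) / (t - s) / (F s * F t))) ^ 2) =
      √((t - s) ^ 2 * (((F t - F s) / (t - s) / (F s * F t)) ^ 2 +
      (1 / F t - s * ((F t - F s) / (t - s) / (F s * F t))) ^ 2)) by
    rw [Real.sqrt_mul (sq_nonneg _), Real.sqrt_sq hts.le]]
  congr 1
  have h1 := (hp s).ne'
  have h2 := (hp t).ne'
  have h3 := hts.ne'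
  field_simp
  ring

/-- chord lengths near `0` -/
lemma chord {F : ℝ → ℝ} (hF : ConvexOn ℝ univ F) (hc : Continuous F) (hp : ∀ x, 0 < F x) {e f : E}
    (h : ON e f) {ε : ℝ} (hε : 0 < ε) : ∃ d : ℝ, 0 < d ∧ ∀ s t : ℝ, 0 ≤ s → s < t → t < d →
      (V F - ε) * (t - s) ≤ ‖cur F e f t - cur F e f s‖ ∧
      ‖cur F e f t - cur F e f s‖ ≤ (V F + ε) * (t - s) := by
  obtain ⟨η, hη, h1⟩ := Metric.continuousAt_iff.1 (Phi_cont (a := rd F) (hp 0).ne') ε hε
  obtain ⟨d, hd, h2⟩ := near hF hc hη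
  refine ⟨d, hd, fun s t hs hst ht => ?_⟩
  obtain ⟨a1, a2, a3, a4⟩ := h2 s t hs hst ht
  have h3 := h1 (x := ((F t - F s) / (t - s), F s, F t, s)) (by
    simp only [Prod.dist_eq, Real.dist_eq, sub_zero]
    exact max_lt a1 (max_lt a2 (max_lt a3 a4)))
  rw [← V_eq, Real.dist_eq, abs_lt] at h3
  rw [cur_sub hp h hst]
  have hts : 0 < t - s := by linarith
  constructor <;> nlinarith [h3.1, h3.2]

end Pool.Agent.Q141.Klam
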