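import Pool.Agent.Q141.Klam.Sym
import Mathlib.MeasureTheory.Measure.Real

/-! Equal halves imply central symmetry (gauge form). -/

open Set Filter Topology MeasureTheory
open scoped MeasureTheory InnerProductSpace

namespace Pool.Agent.Q141.Klam

/-- every line through the origin halves the length of `N = 1` -/
def Bal (N : E2 → ℝ) : Prop := ∀ n : E2, n ≠ 0 →
  μH[1] ({x : E2 | N x = 1} ∩ {x | 0 < ⟪x, n⟫_ℝ}) =
    μH[1] ({x : E2 | N x = 1} ∩ {x | ⟪x, n⟫_ℝ < 0})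

lemma opp {N : E2 → ℝ} (hN : NL N) (hB : Bal N) {n1 n2 : E2} (h1 : n1 ≠ 0) (h2 : n2 ≠ 0) :
    μH[1] ({x : E2 | N x = 1} ∩ ({x | 0 < ⟪x, n1⟫_ℝ} ∩ {x | 0 < ⟪x, n2⟫_ℝ})) =
      μH[1] ({x : E2 | N x = 1} ∩ ({x | ⟪x, n1⟫_ℝ < 0} ∩ {x | ⟪x, n2⟫_ℝ < 0})) := by
  set C : Set E2 := {x : E2 | N x = 1} with hC
  have hCm : MeasurableSet C := (isClosed_singleton.preimage hN.cont).measurableSet
  set ν : Measure E2 := (μH[1]).restrict C with hν
  have : IsFiniteMeasure ν := ⟨by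
    rw [hν, Measure.restrict_apply_univ]
    exact fin hN⟩
  have hP : ∀ n : E2, IsOpen {x : E2 | 0 < ⟪x, n⟫_ℝ} := fun n =>
    isOpen_lt continuous_const (by fun_prop)
  have hQ : ∀ n : E2, IsOpen {x : E2 | ⟪x, n⟫_ℝ < 0} := fun n =>
    isOpen_lt (by fun_prop) continuous_const
  have hZ : ∀ n : E2, n ≠ 0 → ν {x : E2 | ⟪x, n⟫_ℝ = 0} = 0 := by
    intro n hn
    rw [hν, Measure.restrict_apply (isClosed_eq (by fun_prop) continuous_const).measurableSet,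
      inter_comm]
    exact null hN hn
  have hbal : ∀ n : E2, n ≠ 0 → ν {x : E2 | 0 < ⟪x, n⟫_ℝ} = ν {x : E2 | ⟪x, n⟫_ℝ < 0} := by
    intro n hn
    rw [hν, Measure.restrict_apply (hP n).measurableSet, Measure.restrict_apply (hQ n).measurableSet,
      inter_comm, inter_comm _ C]
    exact hB n hn
  have split : ∀ (A : Set E2) (n : E2), n ≠ 0 →
      ν.real A = ν.real (A ∩ {x : E2 | 0 < ⟪x, n⟫_ℝ}) + ν.real (A ∩ {x : E2 | ⟪x, n⟫_ℝ < 0}) := by
    intro A n hn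
    rw [← measureReal_inter_add_sdiff (μ := ν) (s := A) (hP n).measurableSet]
    congr 1
    apply le_antisymm
    · have : A \ {x : E2 | 0 < ⟪x, n⟫_ℝ} ⊆ (A ∩ {x : E2 | ⟪x, n⟫_ℝ < 0}) ∪ {x : E2 | ⟪x, n⟫_ℝ = 0} := by
        rintro x ⟨hx1, hx2⟩
        have hx2 : ¬ 0 < ⟪x, n⟫_ℝ := hx2
        rcases lt_trichotomy ⟪x, n⟫_ℝ 0 with h | h | h
        · exact Or.inl ⟨hx1, h⟩
        · exact Or.inr h
        · exact absurd h hx2
      refine (measureReal_mono this).trans ((measureReal_union_le _ _).trans ?_)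
      have h0 : ν.real {x : E2 | ⟪x, n⟫_ℝ = 0} = 0 := by
        rw [measureReal_def, hZ n hn]
        rfl
      rw [h0, add_zero]
    · refine measureReal_mono ?_ (measure_ne_top _ _)
      rintro x ⟨hx1, hx2⟩
      have hx2 : ⟪x, n⟫_ℝ < 0 := hx2
      refine ⟨hx1, ?_⟩
      show ¬ 0 < ⟪x, n⟫_ℝ
      exact not_lt.2 hx2.le
  have e1 := hbal n1 h1
  have e2 := hbal n2 h2
  have e1' : ν.real {x : E2 | 0 < ⟪x, n1⟫_ℝ} = ν.real {x : E2 | ⟪x, n1⟫_ℝ < 0} := by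
    rw [measureReal_def, measureReal_def, e1]
  have e2' : ν.real {x : E2 | 0 < ⟪x, n2⟫_ℝ} = ν.real {x : E2 | ⟪x, n2⟫_ℝ < 0} := by
    rw [measureReal_def, measureReal_def, e2]
  have s1 := split {x : E2 | 0 < ⟪x, n1⟫_ℝ} n2 h2
  have s2 := split {x : E2 | ⟪x, n1⟫_ℝ < 0} n2 h2
  have s3 := split {x : E2 | 0 < ⟪x, n2⟫_ℝ} n1 h1
  have s4 := split {x : E2 | ⟪x, n2⟫_ℝ < 0} n1 h1
  rw [inter_comm, inter_comm {x : E2 | 0 < ⟪x, n2⟫_ℝ}] at s3
  rw [inter_comm, inter_comm {x : E2 | ⟪x, n2⟫_ℝ < 0}] at s4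
  have key : ν.real ({x : E2 | 0 < ⟪x, n1⟫_ℝ} ∩ {x | 0 < ⟪x, n2⟫_ℝ}) =
      ν.real ({x : E2 | ⟪x, n1⟫_ℝ < 0} ∩ {x | ⟪x, n2⟫_ℝ < 0}) := by
    linarith
  rw [measureReal_def, measureReal_def, ENNReal.toReal_eq_toReal_iff' (measure_ne_top _ _)
    (measure_ne_top _ _)] at key
  rw [hν, Measure.restrict_apply ((hP n1).inter (hP n2)).measurableSet,
    Measure.restrict_apply ((hQ n1).inter (hQ n2)).measurableSet, inter_comm,
    inter_comm _ C] at key
  exact key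

lemma arcs {N : E2 → ℝ} (hN : NL N) (hB : Bal N) {e f : E2} (h : ON e f) {δ : ℝ} (hδ : 0 < δ) :
    μH[1] (cur (ln N e f) e f '' Ioo 0 δ) =
      μH[1] (cur (ln (fun v => N (-v)) e f) e f '' Ioo 0 δ) := by
  rw [← sector hN h hδ, ← sector hN.neg h hδ]
  have hf : f ≠ 0 := by
    rintro rfl
    have := h.nf
    simp at this
  have hn2 : δ • e - f ≠ 0 := by
    intro h0
    have h1 := h.iff δ (-1)
    rw [neg_one_smul, ← sub_eq_add_neg, h0, inner_zero_left] at h1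
    norm_num at h1
  rw [opp hN hB hf hn2]
  have himg : {x : E2 | N (-x) = 1} ∩ ({x | 0 < ⟪x, f⟫_ℝ} ∩ {x | 0 < ⟪x, δ • e - f⟫_ℝ}) =
      (fun x : E2 => -x) '' ({x : E2 | N x = 1} ∩
        ({x | ⟪x, f⟫_ℝ < 0} ∩ {x | ⟪x, δ • e - f⟫_ℝ < 0})) := by
    ext x
    constructor
    · rintro ⟨a1, a2, a3⟩
      have a2 : 0 < ⟪x, f⟫_ℝ := a2
      have a3 : 0 < ⟪x, δ • e - f⟫_ℝ := a3
      refine ⟨-x, ⟨a1, ?_, ?_⟩, neg_neg x⟩
      · show ⟪-x, f⟫_ℝ < 0
        rw [inner_neg_left]; linarith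
      · show ⟪-x, δ • e - f⟫_ℝ < 0
        rw [inner_neg_left]; linarith
    · rintro ⟨y, ⟨a1, a2, a3⟩, rfl⟩
      have a1 : N y = 1 := a1
      have a2 : ⟪y, f⟫_ℝ < 0 := a2
      have a3 : ⟪y, δ • e - f⟫_ℝ < 0 := a3
      refine ⟨?_, ?_, ?_⟩
      · show N (- -y) = 1
        rw [neg_neg]; exact a1
      · show 0 < ⟪-y, f⟫_ℝ
        rw [inner_neg_left]; linarith
      · show 0 < ⟪-y, δ • e - f⟫_ℝ
        rw [inner_neg_left]; linarith
  rw [himg]
  have hiso : Isometry (fun x : E2 => -x) := by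
    apply Isometry.of_dist_eq
    intro x y
    exact dist_neg_neg x y
  exact (hiso.hausdorffMeasure_image (Or.inl zero_le_one) _).symm

theorem symm {N : E2 → ℝ} (hN : NL N) (hB : Bal N) (v : E2) : N (-v) = N v := by
  have hcont : ContinuousOn (fun v : E2 => N (-v) / N v) (Metric.sphere (0 : E2) 1) := by
    apply ContinuousOn.div (hN.neg.cont.continuousOn) hN.cont.continuousOn
    intro x hx
    refine (hN.pos x ?_).ne'
    rintro rfl
    simp at hx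
  obtain ⟨e, he, hmax⟩ := (isCompact_sphere (0 : E2) 1).exists_isMaxOn unit_nonempty hcont
  have he1 : ‖e‖ = 1 := by simpa using he
  have he0 : e ≠ 0 := by
    rintro rfl
    simp at he1
  set k := N (-e) / N e with hk
  have hz : N 0 = 0 := by
    have := hN.hom 0 0 le_rfl
    simpa using this
  have hle : ∀ v : E2, N (-v) ≤ k * N v := by
    intro v
    by_cases hv : v = 0
    · rw [hv, neg_zero, hz, mul_zero]
    have hv' : ‖v‖ ≠ 0 := norm_ne_zero_iff.2 hv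
    have hu : ‖v‖⁻¹ • v ∈ Metric.sphere (0 : E2) 1 := by
      rw [mem_sphere_zero_iff_norm, norm_smul, norm_inv, norm_norm, inv_mul_cancel₀ hv']
    have hu0 : ‖v‖⁻¹ • v ≠ 0 := smul_ne_zero (inv_ne_zero hv') hv
    have h1 : N (-(‖v‖⁻¹ • v)) / N (‖v‖⁻¹ • v) ≤ k := hmax hu
    rw [div_le_iff₀ (hN.pos _ hu0)] at h1
    have h2 : v = ‖v‖ • (‖v‖⁻¹ • v) := by rw [smul_smul, mul_inv_cancel₀ hv', one_smul]
    have h3 : N v = ‖v‖ * N (‖v‖⁻¹ • v) := by
      conv_lhs => rw [h2]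
      exact hN.hom _ _ (norm_nonneg v)
    have h4 : N (-v) = ‖v‖ * N (-(‖v‖⁻¹ • v)) := by
      conv_lhs => rw [h2]
      rw [← smul_neg]
      exact hN.hom _ _ (norm_nonneg v)
    rw [h3, h4]
    calc ‖v‖ * N (-(‖v‖⁻¹ • v)) ≤ ‖v‖ * (k * N (‖v‖⁻¹ • v)) :=
          mul_le_mul_of_nonneg_left h1 (norm_nonneg v)
      _ = k * (‖v‖ * N (‖v‖⁻¹ • v)) := by ring
  by_cases hk1 : k ≤ 1
  · have hall : ∀ v : E2, N (-v) ≤ N v := by
      intro v
      have h1 := hle v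
      have h2 : 0 ≤ N v := by
        by_cases hv : v = 0
        · rw [hv, hz]
        · exact (hN.pos v hv).le
      nlinarith
    have h5 := hall (-v)
    rw [neg_neg] at h5
    exact le_antisymm (hall v) h5
  · exfalso
    push Not at hk1
    obtain ⟨f, h⟩ := exists_ON he1
    have main : ∀ f : E2, ON e f → ∃ d : ℝ, 0 < d ∧ ∀ t, 0 < t → t < d →
        ln (fun v => N (-v)) e f t < ln (fun v => N (-v)) e f 0 := by
      intro f h
      refine side (ln_conv hN e f) (ln_cont hN e f) (ln_pos hN h) (ln_conv hN.neg e f)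
        (ln_cont hN.neg e f) (ln_pos hN.neg h) h (fun δ hδ => arcs hN hB h hδ) hk1 ?_ ?_
      · unfold ln
        rw [zero_smul, add_zero, hk, div_mul_cancel₀ _ (hN.pos e he0).ne']
      · intro t
        exact hle _
    obtain ⟨d1, hd1, h1⟩ := main f h
    obtain ⟨d2, hd2, h2⟩ := main (-f) h.neg
    set t := min d1 d2 / 2 with ht
    have hm : 0 < min d1 d2 := lt_min hd1 hd2
    have ht0 : 0 < t := by positivity
    have a1 := h1 t ht0 (by linarith [min_le_left d1 d2])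
    have a2 := h2 t ht0 (by linarith [min_le_right d1 d2])
    have a3 : ln (fun v => N (-v)) e (-f) t = ln (fun v => N (-v)) e f (-t) := by
      unfold ln
      rw [smul_neg, neg_smul]
    have a4 : ln (fun v => N (-v)) e (-f) 0 = ln (fun v => N (-v)) e f 0 := by
      unfold ln
      rw [zero_smul, zero_smul]
    rw [a3, a4] at a2
    have a5 := (ln_conv hN.neg e f).2 (mem_univ t) (mem_univ (-t)) (show (0 : ℝ) ≤ 1 / 2 by norm_num)
      (show (0 : ℝ) ≤ 1 / 2 by norm_num) (by norm_num)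
    rw [smul_eq_mul, smul_eq_mul, smul_eq_mul, smul_eq_mul,
      show 1 / 2 * t + 1 / 2 * -t = 0 by ring] at a5
    linarith

end Pool.Agent.Q141.Klam
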