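import Pool.Agent.Q141.Klam.Conv
import Mathlib.MeasureTheory.Measure.Lebesgue.Basic

/-! Hausdorff measure of short arcs. -/

open Set Filter Topology MeasureTheory
open scoped MeasureTheory

namespace Pool.Agent.Q141.Klam

variable {E : Type*} [NormedAddCommGroup E] [InnerProductSpace ℝ E] [MeasurableSpace E]
  [BorelSpace E]

lemma V_nonneg (F : ℝ → ℝ) : 0 ≤ V F := Real.sqrt_nonneg _

omit [MeasurableSpace E] [BorelSpace E] in
lemma cur_cont {F : ℝ → ℝ} (hc : Continuous F) (hp : ∀ x, 0 < F x) (e f : E) :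
    Continuous (cur F e f) := by
  unfold cur
  exact (continuous_const.div hc fun x => (hp x).ne').smul
    (continuous_const.add (continuous_id.smul continuous_const))

/-- upper and lower bounds for the length of short arcs -/
lemma haus {F : ℝ → ℝ} (hF : ConvexOn ℝ univ F) (hc : Continuous F) (hp : ∀ x, 0 < F x) {e f : E}
    (h : ON e f) {ε : ℝ} (hε : 0 < ε) : ∃ d : ℝ, 0 < d ∧ ∀ δ : ℝ, 0 < δ → δ < d →
      ENNReal.ofReal ((V F - ε) * δ) ≤ μH[1] (cur F e f '' Ioo 0 δ) ∧
      μH[1] (cur F e f '' Ioo 0 δ) ≤ ENNReal.ofReal ((V F + ε) * δ) := by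
  obtain ⟨d, hd, hh⟩ := chord hF hc hp h hε
  refine ⟨d, hd, fun δ h0 h1 => ⟨?_, ?_⟩⟩
  · have h2 := (hh 0 δ le_rfl h0 h1).1
    rw [sub_zero] at h2
    by_cases hw : cur F e f δ - cur F e f 0 = 0
    · rw [hw, norm_zero] at h2
      rw [ENNReal.ofReal_of_nonpos h2]
      exact bot_le
    · set w := cur F e f δ - cur F e f 0 with hwd
      have hw' : 0 < ‖w‖ := norm_pos_iff.2 hw
      set P : E → ℝ := fun x => inner ℝ x w / ‖w‖ with hP
      have hPL : LipschitzWith 1 P := by
        apply LipschitzWith.of_dist_le_mul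
        intro x y
        rw [hP, Real.dist_eq, ← sub_div, ← inner_sub_left, abs_div, abs_of_pos hw',
          div_le_iff₀ hw', NNReal.coe_one, one_mul, dist_eq_norm]
        exact abs_real_inner_le_norm _ _
      have h3 := hPL.hausdorffMeasure_image_le (d := 1) zero_le_one (cur F e f '' Ioo 0 δ)
      rw [ENNReal.coe_one, ENNReal.one_rpow, one_mul] at h3
      refine le_trans ?_ h3
      rw [← image_comp, hausdorffMeasure_real]
      have hPc : Continuous (P ∘ cur F e f) := hPL.continuous.comp (cur_cont hc hp e f)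
      have h4 := intermediate_value_Ioo h0.le hPc.continuousOn
      have h5 : (P ∘ cur F e f) δ - (P ∘ cur F e f) 0 = ‖w‖ := by
        simp only [hP, Function.comp]
        rw [← sub_div, ← inner_sub_left, ← hwd, real_inner_self_eq_norm_sq, sq, mul_div_assoc,
          div_self hw'.ne', mul_one]
      calc ENNReal.ofReal ((V F - ε) * δ) ≤ ENNReal.ofReal ‖w‖ := ENNReal.ofReal_le_ofReal h2
        _ = volume (Ioo ((P ∘ cur F e f) 0) ((P ∘ cur F e f) δ)) := by
            rw [Real.volume_Ioo, h5]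
        _ ≤ _ := measure_mono h4
  · have hV : 0 ≤ V F + ε := by linarith [V_nonneg F]
    have hL : LipschitzOnWith (Real.toNNReal (V F + ε)) (cur F e f) (Ioo 0 δ) := by
      apply LipschitzOnWith.of_dist_le_mul
      have key : ∀ s ∈ Ioo 0 δ, ∀ t ∈ Ioo 0 δ, s < t →
          dist (cur F e f s) (cur F e f t) ≤ (V F + ε) * dist s t := by
        intro s hs t ht hst
        have := (hh s t hs.1.le hst (ht.2.trans h1)).2
        rw [dist_comm, dist_eq_norm, dist_comm, Real.dist_eq, abs_of_pos (by linarith)]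
        exact this
      intro s hs t ht
      rw [Real.coe_toNNReal _ hV]
      rcases lt_trichotomy s t with h3 | h3 | h3
      · exact key s hs t ht h3
      · rw [h3, dist_self, dist_self, mul_zero]
      · rw [dist_comm, dist_comm s t]
        exact key t ht s hs h3
    have h4 := hL.hausdorffMeasure_image_le (d := 1) zero_le_one
    rw [ENNReal.rpow_one, hausdorffMeasure_real, Real.volume_Ioo, sub_zero] at h4
    rw [ENNReal.ofReal_mul hV]
    exact h4

lemma V_le {F G : ℝ → ℝ} (hF : ConvexOn ℝ univ F) (hc : Continuous F) (hp : ∀ x, 0 < F x)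
    (hG : ConvexOn ℝ univ G) (hGc : Continuous G) (hGp : ∀ x, 0 < G x) {e f : E} (h : ON e f)
    (heq : ∀ δ : ℝ, 0 < δ → μH[1] (cur F e f '' Ioo 0 δ) = μH[1] (cur G e f '' Ioo 0 δ)) :
    V F ≤ V G := by
  by_contra hcon
  push Not at hcon
  obtain ⟨d1, hd1, h1⟩ := haus hF hc hp h (show 0 < (V F - V G) / 3 by linarith)
  obtain ⟨d2, hd2, h2⟩ := haus hG hGc hGp h (show 0 < (V F - V G) / 3 by linarith)
  obtain ⟨δ, hδ0, hδ⟩ := exists_between (lt_min hd1 hd2)
  have a1 := (h1 δ hδ0 (hδ.trans_le (min_le_left _ _))).1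
  have a2 := (h2 δ hδ0 (hδ.trans_le (min_le_right _ _))).2
  rw [← heq δ hδ0] at a2
  have a3 := a1.trans a2
  rw [ENNReal.ofReal_le_ofReal_iff (mul_nonneg (by linarith [V_nonneg G]) hδ0.le)] at a3
  nlinarith

lemma alg {f0 g0 a b : ℝ} (hf : 0 < f0) (hg : f0 < g0) (hab : b ≤ g0 / f0 * a)
    (hV : √((a / (f0 * f0)) ^ 2 + (1 / f0) ^ 2) = √((b / (g0 * g0)) ^ 2 + (1 / g0) ^ 2)) :
    b < 0 := by
  by_contra hb
  push Not at hb
  have h1 : (a / (f0 * f0)) ^ 2 + (1 / f0) ^ 2 = (b / (g0 * g0)) ^ 2 + (1 / g0) ^ 2 := by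
    have := congrArg (fun x => x ^ 2) hV
    beta_reduce at this
    rwa [Real.sq_sqrt (by positivity), Real.sq_sqrt (by positivity)] at this
  have hg0 : 0 < g0 := by linarith
  have ha : 0 ≤ a := by
    by_contra ha
    push Not at ha
    have : g0 / f0 * a < 0 := mul_neg_of_pos_of_neg (by positivity) ha
    linarith
  have h2 : b / (g0 * g0) ≤ a / (f0 * f0) := by
    calc b / (g0 * g0) ≤ (g0 / f0 * a) / (g0 * g0) := by gcongr
      _ = a / (f0 * g0) := by field_simp
      _ ≤ a / (f0 * f0) := by gcongr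
  have h3 : 1 / g0 < 1 / f0 := one_div_lt_one_div_of_lt hf hg
  have h4 : (b / (g0 * g0)) ^ 2 ≤ (a / (f0 * f0)) ^ 2 := by gcongr
  have h5 : (1 / g0) ^ 2 < (1 / f0) ^ 2 := by gcongr
  linarith

/-- one side of the contradiction -/
lemma side {F G : ℝ → ℝ} (hF : ConvexOn ℝ univ F) (hc : Continuous F) (hp : ∀ x, 0 < F x)
    (hG : ConvexOn ℝ univ G) (hGc : Continuous G) (hGp : ∀ x, 0 < G x) {e f : E} (h : ON e f)
    (heq : ∀ δ : ℝ, 0 < δ → μH[1] (cur F e f '' Ioo 0 δ) = μH[1] (cur G e f '' Ioo 0 δ))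
    {k : ℝ} (hk : 1 < k) (h0 : G 0 = k * F 0) (hle : ∀ t, G t ≤ k * F t) :
    ∃ d : ℝ, 0 < d ∧ ∀ t, 0 < t → t < d → G t < G 0 := by
  have hVV : V F = V G := le_antisymm (V_le hF hc hp hG hGc hGp h heq)
    (V_le hG hGc hGp hF hc hp h fun δ hδ => (heq δ hδ).symm)
  have hF0 := hp 0
  have hkk : G 0 / F 0 = k := by rw [h0]; field_simp
  have hrd : rd G ≤ G 0 / F 0 * rd F := by
    rw [hkk]
    have t1 : Tendsto (slope G 0) (𝓝[>] 0) (𝓝 (rd G)) :=
      (hasDerivWithinAt_iff_tendsto_slope' self_notMem_Ioi).1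
        (hG.hasDerivWithinAt_rightDeriv_of_mem_interior (by simp))
    have t2 : Tendsto (slope F 0) (𝓝[>] 0) (𝓝 (rd F)) :=
      (hasDerivWithinAt_iff_tendsto_slope' self_notMem_Ioi).1
        (hF.hasDerivWithinAt_rightDeriv_of_mem_interior (by simp))
    refine le_of_tendsto_of_tendsto t1 (t2.const_mul k) ?_
    filter_upwards [self_mem_nhdsWithin] with t ht
    have ht' : (0 : ℝ) < t := ht
    simp only [slope_def_field, sub_zero]
    rw [mul_div_assoc', div_le_div_iff_of_pos_right ht']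
    have := hle t
    rw [h0]
    linarith
  have hb : rd G < 0 := by
    refine alg hF0 ?_ hrd hVV
    rw [h0]
    nlinarith
  obtain ⟨d, hd, hh⟩ := near hG hGc (show 0 < - rd G by linarith)
  refine ⟨d, hd, fun t h1 h2 => ?_⟩
  have h3 := (hh 0 t le_rfl h1 h2).1
  rw [sub_zero, abs_lt] at h3
  have h4 : (G t - G 0) / t < 0 := by linarith [h3.2]
  rw [div_neg_iff] at h4
  rcases h4 with h4 | h4
  · linarith [h4.2]
  · linarith [h4.1]

end Pool.Agent.Q141.Klam
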