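import Pool.Agent.Q141.Klam.Fin
import Mathlib.Analysis.LocallyConvex.Separation
import Mathlib.Analysis.Convex.Topology
import Mathlib.Analysis.InnerProductSpace.Dual

/-! Perimeter-bisecting points of convex curves. -/

open Set Filter Topology MeasureTheory
open scoped MeasureTheory InnerProductSpace

namespace Pool.Agent.Q141.Klam

/-- a ray from an interior point meets the frontier -/
lemma ray {K : Set E2} (hK : IsCompact K) {q n : E2} (hq : q ∈ interior K) (hn : n ≠ 0) :
    ∃ t : ℝ, 0 < t ∧ q - t • n ∈ frontier K := by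
  obtain ⟨R, hR⟩ := hK.isBounded.subset_closedBall 0
  have hn' : 0 < ‖n‖ := norm_pos_iff.2 hn
  set T := (R + ‖q‖) / ‖n‖ + 1 with hT
  have hg : Continuous fun t : ℝ => q - t • n := by fun_prop
  have hbd : ∀ t : ℝ, q - t • n ∈ K → t ≤ (R + ‖q‖) / ‖n‖ := by
    intro t ht
    have h1 := hR ht
    rw [mem_closedBall_zero_iff] at h1
    rw [le_div_iff₀ hn']
    have h2 : ‖t • n‖ ≤ ‖q - t • n‖ + ‖q‖ := by
      have : t • n = q - (q - t • n) := by abel
      calc ‖t • n‖ = ‖q - (q - t • n)‖ := by rw [← this]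
        _ ≤ ‖q‖ + ‖q - t • n‖ := norm_sub_le _ _
        _ = _ := add_comm _ _
    rw [norm_smul, Real.norm_eq_abs] at h2
    have h3 : t * ‖n‖ ≤ |t| * ‖n‖ := mul_le_mul_of_nonneg_right (le_abs_self t) hn'.le
    linarith
  have hS : IsCompact (Icc (0 : ℝ) T ∩ {t | q - t • n ∈ K}) :=
    isCompact_Icc.inter_right (hK.isClosed.preimage hg)
  have h0 : (0 : ℝ) ∈ Icc (0 : ℝ) T ∩ {t | q - t • n ∈ K} := by
    refine ⟨⟨le_rfl, ?_⟩, ?_⟩
    · have := hbd 0 (by rw [zero_smul, sub_zero]; exact interior_subset hq)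
      linarith
    · show q - (0 : ℝ) • n ∈ K
      rw [zero_smul, sub_zero]
      exact interior_subset hq
  obtain ⟨t, ht, hmax⟩ := hS.exists_isMaxOn ⟨0, h0⟩ continuous_id.continuousOn
  have htK : q - t • n ∈ K := ht.2
  have htT := hbd t htK
  have hni : q - t • n ∉ interior K := by
    intro hi
    have hnb : ∀ᶠ s in 𝓝 t, q - s • n ∈ interior K :=
      (hg.tendsto t).eventually (isOpen_interior.mem_nhds hi)
    obtain ⟨ε, hε, hb⟩ := Metric.eventually_nhds_iff.1 hnb
    set s := t + min (ε / 2) 1 with hs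
    have hm : 0 < min (ε / 2) 1 := lt_min (by linarith) one_pos
    have h1 : q - s • n ∈ interior K := hb (by
      rw [Real.dist_eq, hs, add_sub_cancel_left, abs_of_pos hm]
      linarith [min_le_left (ε / 2) 1])
    have h2 := hbd s (interior_subset h1)
    have h3 : s ≤ t := hmax (show s ∈ Icc (0 : ℝ) T ∩ {t | q - t • n ∈ K} from
      ⟨⟨by linarith [ht.1.1], by linarith⟩, (interior_subset h1 : q - s • n ∈ K)⟩)
    linarith
  refine ⟨t, ?_, ?_⟩
  · rcases ht.1.1.eq_or_lt with h | h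
    · exfalso
      apply hni
      rw [← h, zero_smul, sub_zero]
      exact hq
    · exact h
  · rw [hK.isClosed.frontier_eq]
    exact ⟨htK, hni⟩

/-- the bisecting property -/
def Bisects (K : Set E2) (O : E2) : Prop := ∀ n : E2, n ≠ 0 →
  μH[1] (frontier K ∩ {x | 0 < ⟪x - O, n⟫_ℝ}) = μH[1] (frontier K ∩ {x | ⟪x - O, n⟫_ℝ < 0})

lemma O_mem {K : Set E2} (hK : IsCompact K) (hv : Convex ℝ K) (hi : (interior K).Nonempty) {O : E2}
    (H : Bisects K O) : O ∈ interior K := by
  by_contra hO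
  obtain ⟨F, hF⟩ := geometric_hahn_banach_open_point hv.interior isOpen_interior hO
  obtain ⟨n, hn⟩ : ∃ n : E2, ∀ x, F x = ⟪x, n⟫_ℝ := by
    refine ⟨(InnerProductSpace.toDual ℝ E2).symm F, fun x => ?_⟩
    rw [real_inner_comm, InnerProductSpace.toDual_symm_apply]
  obtain ⟨p, hp⟩ := hi
  have hn0 : n ≠ 0 := by
    rintro rfl
    have := hF p hp
    rw [hn, hn] at this
    simp at this
  have hle : ∀ x ∈ K, ⟪x, n⟫_ℝ ≤ ⟪O, n⟫_ℝ := by
    intro x hx
    have h1 : x ∈ closure (interior K) := by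
      rw [hv.closure_interior_eq_closure_of_nonempty_interior ⟨p, hp⟩]
      exact subset_closure hx
    have h2 : IsClosed {x : E2 | ⟪x, n⟫_ℝ ≤ ⟪O, n⟫_ℝ} := isClosed_le (by fun_prop) continuous_const
    refine closure_minimal ?_ h2 h1
    intro y hy
    have := hF y hy
    rw [hn, hn] at this
    exact this.le
  have h0 := H n hn0
  have hempty : frontier K ∩ {x | 0 < ⟪x - O, n⟫_ℝ} = ∅ := by
    rw [eq_empty_iff_forall_notMem]
    rintro x ⟨h1, h2⟩
    have h2 : 0 < ⟪x - O, n⟫_ℝ := h2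
    have h3 := hle x (hK.isClosed.frontier_subset h1)
    rw [inner_sub_left] at h2
    linarith
  rw [hempty, measure_empty] at h0
  -- positivity of the other side
  have hn' : ‖n‖ ≠ 0 := norm_ne_zero_iff.2 hn0
  obtain ⟨w, h⟩ := exists_ON (e := ‖n‖⁻¹ • n) (by
    rw [norm_smul, norm_inv, norm_norm, inv_mul_cancel₀ hn'])
  have hw : ⟪n, w⟫_ℝ = 0 := by
    have := h.or
    rw [inner_smul_left] at this
    have h3 : ‖n‖⁻¹ ≠ 0 := inv_ne_zero hn'
    simpa [h3] using this
  have hww : ⟪w, w⟫_ℝ = 1 := by rw [real_inner_self_eq_norm_sq, h.nf]; norm_num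
  obtain ⟨r, hr, hb⟩ := Metric.isOpen_iff.1 isOpen_interior p hp
  set P : E2 → ℝ := fun x => ⟪x - p, w⟫_ℝ with hP
  have hPL : LipschitzWith 1 P := by
    apply LipschitzWith.of_dist_le_mul
    intro x y
    rw [hP, Real.dist_eq, ← inner_sub_left, NNReal.coe_one, one_mul, dist_eq_norm,
      show x - p - (y - p) = x - y by abel]
    have := abs_real_inner_le_norm (x - y) w
    rwa [h.nf, mul_one] at this
  have h3 := hPL.hausdorffMeasure_image_le (d := 1) zero_le_one
    (frontier K ∩ {x | ⟪x - O, n⟫_ℝ < 0})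
  rw [← h0, mul_zero, hausdorffMeasure_real] at h3
  have h4 : Ioo (-r) r ⊆ P '' (frontier K ∩ {x | ⟪x - O, n⟫_ℝ < 0}) := by
    intro s hs
    have hq : p + s • w ∈ interior K := hb (by
      rw [Metric.mem_ball, dist_eq_norm, add_sub_cancel_left, norm_smul, h.nf, mul_one,
        Real.norm_eq_abs]
      exact abs_lt.2 hs)
    obtain ⟨t, ht, hfr⟩ := ray hK hq hn0
    refine ⟨_, ⟨hfr, ?_⟩, ?_⟩
    · show ⟪p + s • w - t • n - O, n⟫_ℝ < 0
      have h5 := hle _ (interior_subset hq)
      rw [inner_sub_left, inner_sub_left, inner_smul_left, real_inner_self_eq_norm_sq]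
      have h6 : 0 < t * ‖n‖ ^ 2 := by positivity
      simp only [conj_trivial]
      linarith
    · show ⟪p + s • w - t • n - p, w⟫_ℝ = s
      rw [show p + s • w - t • n - p = s • w - t • n by abel, inner_sub_left, inner_smul_left,
        inner_smul_left, hw, hww]
      simp
  have h5 := (measure_mono h4).trans h3
  rw [Real.volume_Ioo] at h5
  have h6 : 0 < ENNReal.ofReal (r - -r) := ENNReal.ofReal_pos.2 (by linarith)
  exact absurd h5 (not_le.2 h6)

lemma gauge_NL {K : Set E2} (hK : IsCompact K) (hv : Convex ℝ K) (h0 : (0 : E2) ∈ interior K) :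
    NL (gauge K) := by
  have hnb : K ∈ 𝓝 (0 : E2) := mem_interior_iff_mem_nhds.1 h0
  have habs : Absorbent ℝ K := absorbent_nhds_zero hnb
  refine ⟨continuous_gauge hv hnb, fun v hv0 => ?_, fun c v hc => ?_, gauge_add_le hv habs⟩
  · exact (gauge_pos habs (NormedSpace.isVonNBounded_of_isBounded ℝ hK.isBounded)).2 hv0
  · rw [gauge_smul_of_nonneg hc, smul_eq_mul]

theorem main {K : Set E2} (hK : IsCompact K) (hv : Convex ℝ K) (hi : (interior K).Nonempty) (O : E2)
    (H : Bisects K O) : (fun x => (2 : ℝ) • O - x) '' frontier K = frontier K := by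
  have hO := O_mem hK hv hi H
  -- translate
  let τ : E2 ≃ₜ E2 := Homeomorph.addRight O
  have hτ : ∀ x, τ x = x + O := fun x => rfl
  set K' : Set E2 := τ ⁻¹' K with hK'
  have hK'c : IsCompact K' := τ.isCompact_preimage.2 hK
  have hK'v : Convex ℝ K' := by
    intro x hx y hy a b ha hb hab
    show τ (a • x + b • y) ∈ K
    have hx : x + O ∈ K := hx
    have hy : y + O ∈ K := hy
    have := hv hx hy ha hb hab
    rw [hτ]
    convert this using 1
    rw [smul_add, smul_add, add_add_add_comm, ← add_smul, hab, one_smul]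
  have h0 : (0 : E2) ∈ interior K' := by
    rw [hK', ← τ.preimage_interior]
    show τ 0 ∈ interior K
    rw [hτ, zero_add]
    exact hO
  have hnb : K' ∈ 𝓝 (0 : E2) := mem_interior_iff_mem_nhds.1 h0
  have hfr : ∀ x : E2, gauge K' x = 1 ↔ x + O ∈ frontier K := by
    intro x
    rw [gauge_eq_one_iff_mem_frontier hK'v hnb, hK', ← τ.preimage_frontier]
    rfl
  have hB : Bal (gauge K') := by
    intro n hn
    have hiso : Isometry (fun x : E2 => x + O) := by
      apply Isometry.of_dist_eq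
      intro x y
      exact dist_add_right x y O
    have e1 : frontier K ∩ {x | 0 < ⟪x - O, n⟫_ℝ} =
        (fun x : E2 => x + O) '' ({x : E2 | gauge K' x = 1} ∩ {x | 0 < ⟪x, n⟫_ℝ}) := by
      ext x
      constructor
      · rintro ⟨a1, a2⟩
        refine ⟨x - O, ⟨?_, a2⟩, sub_add_cancel x O⟩
        show gauge K' (x - O) = 1
        rw [hfr, sub_add_cancel]
        exact a1
      · rintro ⟨y, ⟨a1, a2⟩, rfl⟩
        refine ⟨(hfr y).1 a1, ?_⟩
        show 0 < ⟪y + O - O, n⟫_ℝ
        rw [add_sub_cancel_right]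
        exact a2
    have e2 : frontier K ∩ {x | ⟪x - O, n⟫_ℝ < 0} =
        (fun x : E2 => x + O) '' ({x : E2 | gauge K' x = 1} ∩ {x | ⟪x, n⟫_ℝ < 0}) := by
      ext x
      constructor
      · rintro ⟨a1, a2⟩
        refine ⟨x - O, ⟨?_, a2⟩, sub_add_cancel x O⟩
        show gauge K' (x - O) = 1
        rw [hfr, sub_add_cancel]
        exact a1
      · rintro ⟨y, ⟨a1, a2⟩, rfl⟩
        refine ⟨(hfr y).1 a1, ?_⟩
        show ⟪y + O - O, n⟫_ℝ < 0
        rw [add_sub_cancel_right]
        exact a2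
    have := H n hn
    rw [e1, e2, hiso.hausdorffMeasure_image (Or.inl zero_le_one),
      hiso.hausdorffMeasure_image (Or.inl zero_le_one)] at this
    exact this
  have hsym := symm (gauge_NL hK'c hK'v h0) hB
  have hmaps : ∀ x ∈ frontier K, (2 : ℝ) • O - x ∈ frontier K := by
    intro x hx
    have h1 : gauge K' (x - O) = 1 := by
      rw [hfr, sub_add_cancel]
      exact hx
    rw [← hsym] at h1
    have h2 := (hfr _).1 h1
    convert h2 using 1
    rw [two_smul]
    abel
  apply Subset.antisymm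
  · rintro _ ⟨x, hx, rfl⟩
    exact hmaps x hx
  · intro x hx
    refine ⟨(2 : ℝ) • O - x, hmaps x hx, ?_⟩
    show (2 : ℝ) • O - ((2 : ℝ) • O - x) = x
    abel

end Pool.Agent.Q141.Klam
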