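import Pool.Agent.Q141.Klam.Haus
import Mathlib.Analysis.Convex.Gauge
import Mathlib.Analysis.SpecialFunctions.Complex.Arg
import Mathlib.Analysis.SpecialFunctions.Trigonometric.Bounds
import Mathlib.Analysis.Normed.Lp.MeasurableSpace

/-! The symmetry theorem for gauge-like functions in the plane. -/

open Set Filter Topology MeasureTheory
open scoped MeasureTheory InnerProductSpace

namespace Pool.Agent.Q141.Klam

/-- the Euclidean plane -/
abbrev E2 := EuclideanSpace ℝ (Fin 2)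

/-- gauge-like functions -/
structure NL (N : E2 → ℝ) : Prop where
  cont : Continuous N
  pos : ∀ v, v ≠ 0 → 0 < N v
  hom : ∀ (c : ℝ) (v : E2), 0 ≤ c → N (c • v) = c * N v
  add : ∀ v w, N (v + w) ≤ N v + N w

lemma NL.neg {N : E2 → ℝ} (h : NL N) : NL (fun v => N (-v)) where
  cont := h.cont.comp continuous_neg
  pos v hv := h.pos _ (neg_ne_zero.2 hv)
  hom c v hc := by rw [← smul_neg]; exact h.hom c _ hc
  add v w := by rw [neg_add]; exact h.add _ _

lemma ON.ne_zero {e f : E2} (h : ON e f) (t : ℝ) : e + t • f ≠ 0 := by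
  intro h0
  have := h.norm 1 t
  rw [one_smul, h0, norm_zero] at this
  have h1 : 0 < √(1 ^ 2 + t ^ 2) := Real.sqrt_pos.2 (by positivity)
  linarith

lemma ON.neg {e f : E2} (h : ON e f) : ON e (-f) :=
  ⟨h.ne, by rw [norm_neg]; exact h.nf, by rw [inner_neg_right, h.or, neg_zero]⟩

lemma exists_ON {e : E2} (he : ‖e‖ = 1) : ∃ f, ON e f := by
  refine ⟨!₂[-(e 1), e 0], he, ?_, ?_⟩
  · rw [EuclideanSpace.norm_eq] at he ⊢
    simp [Fin.sum_univ_two] at he ⊢
    linarith
  · simp [PiLp.inner_apply, Fin.sum_univ_two]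
    ring

/-- coordinates -/
lemma ON.span {e f : E2} (h : ON e f) (x : E2) : x = (⟪x, e⟫_ℝ) • e + (⟪x, f⟫_ℝ) • f := by
  have ho : Orthonormal ℝ ![e, f] := by
    constructor
    · intro i
      fin_cases i
      · exact h.ne
      · exact h.nf
    · intro i j hij
      fin_cases i <;> fin_cases j
      · exact absurd rfl hij
      · exact h.or
      · show inner ℝ f e = 0
        rw [real_inner_comm]
        exact h.or
      · exact absurd rfl hij
  have hcard : Fintype.card (Fin 2) = Module.finrank ℝ E2 := by simp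
  set b := basisOfOrthonormalOfCardEqFinrank ho hcard with hb
  have hbo : Orthonormal ℝ b := by
    rw [hb, coe_basisOfOrthonormalOfCardEqFinrank]
    exact ho
  have h1 := (b.toOrthonormalBasis hbo).sum_repr' x
  rw [Fin.sum_univ_two] at h1
  simp only [Module.Basis.coe_toOrthonormalBasis, hb, coe_basisOfOrthonormalOfCardEqFinrank] at h1
  rw [real_inner_comm, real_inner_comm x] at h1
  exact h1.symm

lemma ON.ie {e f : E2} (h : ON e f) (a b : ℝ) : ⟪a • e + b • f, e⟫_ℝ = a := by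
  rw [inner_add_left, inner_smul_left, inner_smul_left, real_inner_self_eq_norm_sq, h.ne,
    real_inner_comm, h.or]
  simp

lemma ON.iff {e f : E2} (h : ON e f) (a b : ℝ) : ⟪a • e + b • f, f⟫_ℝ = b := by
  rw [inner_add_left, inner_smul_left, inner_smul_left, real_inner_self_eq_norm_sq, h.nf, h.or]
  simp

/-- the restriction of `N` to the line `e + t f` -/
noncomputable def ln (N : E2 → ℝ) (e f : E2) (t : ℝ) : ℝ := N (e + t • f)

lemma ln_conv {N : E2 → ℝ} (hN : NL N) (e f : E2) : ConvexOn ℝ univ (ln N e f) := by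
  refine ⟨convex_univ, fun x _ y _ a b ha hb hab => ?_⟩
  unfold ln
  have : e + (a • x + b • y) • f = a • (e + x • f) + b • (e + y • f) := by
    rw [smul_add, smul_add, add_add_add_comm, ← add_smul, hab, one_smul, smul_smul, smul_smul,
      ← add_smul]
    rfl
  rw [this]
  refine (hN.add _ _).trans (le_of_eq ?_)
  rw [hN.hom _ _ ha, hN.hom _ _ hb]
  rfl

lemma ln_cont {N : E2 → ℝ} (hN : NL N) (e f : E2) : Continuous (ln N e f) :=
  hN.cont.comp (continuous_const.add (continuous_id.smul continuous_const))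

lemma ln_pos {N : E2 → ℝ} (hN : NL N) {e f : E2} (h : ON e f) (t : ℝ) : 0 < ln N e f t :=
  hN.pos _ (h.ne_zero t)

/-- the curve `N = 1` in a sector -/
lemma sector {N : E2 → ℝ} (hN : NL N) {e f : E2} (h : ON e f) {δ : ℝ} (hδ : 0 < δ) :
    {x | N x = 1} ∩ ({x | 0 < ⟪x, f⟫_ℝ} ∩ {x | 0 < ⟪x, δ • e - f⟫_ℝ}) =
      cur (ln N e f) e f '' Ioo 0 δ := by
  ext x
  constructor
  · rintro ⟨h1, h2, h3⟩
    have h1 : N x = 1 := h1
    have h2 : 0 < ⟪x, f⟫_ℝ := h2
    have h3 : 0 < ⟪x, δ • e - f⟫_ℝ := h3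
    rw [inner_sub_right, inner_smul_right] at h3
    set a := ⟪x, e⟫_ℝ with ha
    set b := ⟪x, f⟫_ℝ with hb
    have ha0 : 0 < a := by
      by_contra hc
      push Not at hc
      nlinarith
    have hx : x = a • (e + (b / a) • f) := by
      rw [smul_add, smul_smul, mul_div_cancel₀ _ ha0.ne']
      exact h.span x
    refine ⟨b / a, ⟨by positivity, by rw [div_lt_iff₀ ha0]; linarith⟩, ?_⟩
    unfold cur ln
    rw [hx, hN.hom _ _ ha0.le] at h1
    rw [show 1 / N (e + (b / a) • f) = a by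
      rw [← h1, mul_div_assoc, div_self (hN.pos _ (h.ne_zero _)).ne', mul_one]]
    exact hx.symm
  · rintro ⟨t, ⟨ht0, ht1⟩, rfl⟩
    have hp := ln_pos hN h t
    unfold cur
    set c := 1 / ln N e f t with hc
    have hc0 : 0 < c := by positivity
    refine ⟨?_, ?_, ?_⟩
    · show N (c • (e + t • f)) = 1
      rw [hN.hom _ _ hc0.le, hc]
      unfold ln at hp ⊢
      field_simp
    · show 0 < ⟪c • (e + t • f), f⟫_ℝ
      have := h.iff 1 t
      rw [one_smul] at this
      rw [inner_smul_left, this]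
      exact mul_pos hc0 ht0
    · show 0 < ⟪c • (e + t • f), δ • e - f⟫_ℝ
      have h1 := h.iff 1 t
      have h2 := h.ie 1 t
      rw [one_smul] at h1 h2
      rw [inner_smul_left, inner_sub_right, inner_smul_right, h1, h2]
      exact mul_pos hc0 (by linarith)


lemma exists_unit : ∃ e : E2, ‖e‖ = 1 := ⟨EuclideanSpace.single 0 1, by simp⟩

lemma unit_nonempty : (Metric.sphere (0 : E2) 1).Nonempty := by
  obtain ⟨e, he⟩ := exists_unit
  exact ⟨e, by simpa using he⟩

lemma NL.bounds {N : E2 → ℝ} (hN : NL N) : ∃ m M : ℝ, 0 < m ∧ 0 < M ∧ (∀ v, m * ‖v‖ ≤ N v) ∧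
    ∀ v, N v ≤ M * ‖v‖ := by
  obtain ⟨a, ha, ha'⟩ := (isCompact_sphere (0 : E2) 1).exists_isMinOn unit_nonempty
    hN.cont.continuousOn
  obtain ⟨b, hb, hb'⟩ := (isCompact_sphere (0 : E2) 1).exists_isMaxOn unit_nonempty
    hN.cont.continuousOn
  have hz : N 0 = 0 := by
    have := hN.hom 0 0 le_rfl
    simpa using this
  have ha1 : ‖a‖ = 1 := by simpa using ha
  have hb1 : ‖b‖ = 1 := by simpa using hb
  have key : ∀ v : E2, v ≠ 0 → N v = ‖v‖ * N (‖v‖⁻¹ • v) ∧ ‖v‖⁻¹ • v ∈ Metric.sphere (0 : E2) 1 := by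
    intro v hv
    have hv' : ‖v‖ ≠ 0 := norm_ne_zero_iff.2 hv
    constructor
    · rw [← hN.hom _ _ (norm_nonneg v), smul_smul, mul_inv_cancel₀ hv', one_smul]
    · rw [mem_sphere_zero_iff_norm, norm_smul, norm_inv, norm_norm, inv_mul_cancel₀ hv']
  refine ⟨N a, N b, hN.pos a (by rintro rfl; simp at ha1), hN.pos b (by rintro rfl; simp at hb1),
    fun v => ?_, fun v => ?_⟩
  · by_cases hv : v = 0
    · rw [hv, hz, norm_zero, mul_zero]
    · obtain ⟨h1, h2⟩ := key v hv
      rw [h1, mul_comm]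
      exact mul_le_mul_of_nonneg_left (ha' h2) (norm_nonneg _)
  · by_cases hv : v = 0
    · rw [hv, hz, norm_zero, mul_zero]
    · obtain ⟨h1, h2⟩ := key v hv
      rw [h1, mul_comm]
      exact mul_le_mul_of_nonneg_right (hb' h2) (norm_nonneg _)

/-- the unit circle -/
noncomputable def circ (e f : E2) (θ : ℝ) : E2 := Real.cos θ • e + Real.sin θ • f

lemma circ_norm {e f : E2} (h : ON e f) (θ : ℝ) : ‖circ e f θ‖ = 1 := by
  unfold circ
  rw [h.norm, Real.cos_sq_add_sin_sq, Real.sqrt_one]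

lemma circ_lip {e f : E2} (h : ON e f) (θ φ : ℝ) : ‖circ e f θ - circ e f φ‖ ≤ |θ - φ| := by
  unfold circ
  rw [show Real.cos θ • e + Real.sin θ • f - (Real.cos φ • e + Real.sin φ • f) =
    (Real.cos θ - Real.cos φ) • e + (Real.sin θ - Real.sin φ) • f by
      rw [sub_smul, sub_smul]; abel, h.norm]
  rw [← Real.sqrt_sq_eq_abs]
  apply Real.sqrt_le_sqrt
  have h1 := Real.one_sub_sq_div_two_le_cos (x := θ - φ)
  rw [Real.cos_sub] at h1
  nlinarith [Real.sin_sq_add_cos_sq θ, Real.sin_sq_add_cos_sq φ]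

lemma circ_surj {e f : E2} (h : ON e f) {v : E2} (hv : ‖v‖ = 1) :
    ∃ θ ∈ Icc (-Real.pi) Real.pi, circ e f θ = v := by
  set z : ℂ := ⟨⟪v, e⟫_ℝ, ⟪v, f⟫_ℝ⟩ with hz
  have hn : ‖z‖ = 1 := by
    have h1 := h.norm ⟪v, e⟫_ℝ ⟪v, f⟫_ℝ
    rw [← h.span v, hv] at h1
    rw [Complex.norm_eq_sqrt_sq_add_sq]
    exact h1.symm
  have hz0 : z ≠ 0 := by
    intro h0
    rw [h0, norm_zero] at hn
    exact zero_ne_one hn
  refine ⟨z.arg, ⟨(Complex.neg_pi_lt_arg z).le, Complex.arg_le_pi z⟩, ?_⟩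
  unfold circ
  rw [Complex.cos_arg hz0, Complex.sin_arg, hn, div_one, div_one]
  exact (h.span v).symm

lemma fin {N : E2 → ℝ} (hN : NL N) : μH[1] {x : E2 | N x = 1} < ⊤ := by
  obtain ⟨e, he⟩ := exists_unit
  obtain ⟨f, h⟩ := exists_ON he
  obtain ⟨m, M, hm, hM, h1, h2⟩ := hN.bounds
  have hlip : ∀ v w, |N v - N w| ≤ M * ‖v - w‖ := by
    intro v w
    rw [abs_le]
    constructor
    · have := hN.add (w - v) v
      rw [sub_add_cancel] at this
      have h3 := h2 (w - v)
      rw [norm_sub_rev] at h3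
      linarith
    · have := hN.add (v - w) w
      rw [sub_add_cancel] at this
      have h3 := h2 (v - w)
      linarith
  set g : ℝ → E2 := fun θ => (N (circ e f θ))⁻¹ • circ e f θ with hg
  have hL : LipschitzWith (Real.toNNReal (1 / m + M / m ^ 2)) g := by
    apply LipschitzWith.of_dist_le_mul
    intro θ φ
    rw [Real.coe_toNNReal _ (by positivity), dist_eq_norm, Real.dist_eq]
    have a1 : m ≤ N (circ e f θ) := by simpa [circ_norm h] using h1 (circ e f θ)
    have a2 : m ≤ N (circ e f φ) := by simpa [circ_norm h] using h1 (circ e f φ)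
    have a3 : g θ - g φ = (N (circ e f θ))⁻¹ • (circ e f θ - circ e f φ) +
        ((N (circ e f θ))⁻¹ - (N (circ e f φ))⁻¹) • circ e f φ := by
      simp only [hg]
      rw [smul_sub, sub_smul]
      abel
    rw [a3]
    refine (norm_add_le _ _).trans ?_
    rw [norm_smul, norm_smul, circ_norm h, mul_one, Real.norm_eq_abs, Real.norm_eq_abs, add_mul]
    have p1 : 0 < N (circ e f θ) := by linarith
    have p2 : 0 < N (circ e f φ) := by linarith
    have c1 := circ_lip h θ φ
    have c2 : |N (circ e f θ) - N (circ e f φ)| ≤ M * |θ - φ| :=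
      (hlip _ _).trans (mul_le_mul_of_nonneg_left c1 hM.le)
    apply add_le_add
    · rw [abs_of_pos (by positivity)]
      calc (N (circ e f θ))⁻¹ * ‖circ e f θ - circ e f φ‖ ≤ m⁻¹ * |θ - φ| := by gcongr
        _ = 1 / m * |θ - φ| := by rw [one_div]
    · have : (N (circ e f θ))⁻¹ - (N (circ e f φ))⁻¹ =
          (N (circ e f φ) - N (circ e f θ)) / (N (circ e f θ) * N (circ e f φ)) := by
        field_simp
      rw [this, abs_div, abs_sub_comm, abs_of_pos (mul_pos p1 p2)]
      calc |N (circ e f θ) - N (circ e f φ)| / (N (circ e f θ) * N (circ e f φ)) ≤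
          (M * |θ - φ|) / (m * m) := by gcongr
        _ = M / m ^ 2 * |θ - φ| := by ring
  have hsub : {x : E2 | N x = 1} ⊆ g '' Icc (-Real.pi) Real.pi := by
    intro x hx
    have hx : N x = 1 := hx
    have hx0 : x ≠ 0 := by
      rintro rfl
      have := h2 0
      rw [hx, norm_zero, mul_zero] at this
      linarith
    have hx1 : ‖x‖ ≠ 0 := norm_ne_zero_iff.2 hx0
    obtain ⟨θ, hθ, he⟩ := circ_surj h (v := ‖x‖⁻¹ • x) (by
      rw [norm_smul, norm_inv, norm_norm, inv_mul_cancel₀ hx1])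
    refine ⟨θ, hθ, ?_⟩
    simp only [hg]
    rw [he, hN.hom _ _ (by positivity), hx, mul_one, inv_inv, smul_smul, mul_inv_cancel₀ hx1,
      one_smul]
  refine (measure_mono hsub).trans_lt ?_
  refine ((hL.hausdorffMeasure_image_le zero_le_one _)).trans_lt ?_
  rw [hausdorffMeasure_real, Real.volume_Icc, ENNReal.rpow_one]
  exact ENNReal.mul_lt_top ENNReal.coe_lt_top ENNReal.ofReal_lt_top

lemma null {N : E2 → ℝ} (hN : NL N) {n : E2} (hn : n ≠ 0) :
    μH[1] ({x : E2 | N x = 1} ∩ {x | ⟪x, n⟫_ℝ = 0}) = 0 := by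
  have hn' : ‖n‖ ≠ 0 := norm_ne_zero_iff.2 hn
  obtain ⟨f, h⟩ := exists_ON (e := ‖n‖⁻¹ • n) (by
    rw [norm_smul, norm_inv, norm_norm, inv_mul_cancel₀ hn'])
  have := MeasureTheory.Measure.nullSingletonClass_hausdorff E2 (d := 1) one_pos
  have hsub : {x : E2 | N x = 1} ∩ {x | ⟪x, n⟫_ℝ = 0} ⊆
      ({(N f)⁻¹ • f, (N (-f))⁻¹ • (-f)} : Set E2) := by
    rintro x ⟨h1, h2⟩
    have h1 : N x = 1 := h1
    have h2 : ⟪x, n⟫_ℝ = 0 := h2
    have h3 := h.span x
    rw [inner_smul_right, h2, mul_zero, zero_smul, zero_add] at h3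
    set b := ⟪x, f⟫_ℝ with hb
    have hf0 : f ≠ 0 := by
      rintro rfl
      have := h.nf
      simp at this
    rcases le_total 0 b with hb0 | hb0
    · left
      rw [h3, hN.hom _ _ hb0] at h1
      have : N f ≠ 0 := (hN.pos f hf0).ne'
      rw [h3]
      congr 1
      field_simp
      exact h1
    · right
      have h4 : x = (-b) • (-f) := by rw [smul_neg, neg_smul, neg_neg]; exact h3
      rw [h4, hN.hom _ _ (by linarith)] at h1
      have : N (-f) ≠ 0 := (hN.pos _ (neg_ne_zero.2 hf0)).ne'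
      show x = _
      rw [h4]
      congr 1
      field_simp
      linarith
  exact measure_mono_null hsub (Set.Finite.measure_zero (by simp) _)

end Pool.Agent.Q141.Klam
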